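import Mathlib
import Pool.Agent.helper18.Rot.Defs
import Pool.Agent.helper31.Rot.G
import Pool.Agent.helper31.Rot.Cb
import Pool.Agent.helper9.Rot.Iso
import Pool.Agent.helper8.Rot.Cls

/-!
# The first Betti number of the surface is at least `4` (mod:betti)
-/

open Topology Filter Set
open scoped unitInterval

namespace Pool.Agent.helper97.Rot

open Pool.Agent.helper18.Rot Par
open Pool.Agent.helper31.Rot (continuous_G G_notMem_slitPlane_iff dl_neg_iff dl_eq_zero_iff
  cb_continuousAt cb_pow om_pow eq_lb_iff)
open Pool.Agent.helper9.Rot (exists_isotopy)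
open Pool.Agent.helper8.Rot (exists_cls)

variable (P : Par)

theorem hi_lt' (i : Fin 2) : P.hi i < 1 / 8 := by
  fin_cases i
  · have h1 := P.hi_lo
    have h2 := P.lo_hi 1
    have h3 := P.hi_lt
    simp only [Fin.zero_eta] at *
    linarith
  · exact P.hi_lt

theorem dl_half_pos (i : Fin 2) : 0 < P.dl i ((1 / 2 : ℝ) : UnitAddCircle) := by
  have h1 := hi_lt' P i
  have h2 := P.lo_hi i
  rcases lt_trichotomy (P.dl i ((1 / 2 : ℝ) : UnitAddCircle)) 0 with h | h | h
  · rw [dl_neg_iff P i (by norm_num) (by norm_num)] at h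
    linarith [h.2]
  · rw [dl_eq_zero_iff P i (by norm_num) (by norm_num)] at h
    rcases h with h | h <;> linarith
  · exact h

theorem G_half_mem (i : Fin 2) (y : UnitAddCircle) :
    P.G i (((1 / 2 : ℝ) : UnitAddCircle), y) ∈ Complex.slitPlane := by
  by_contra hcon
  rw [G_notMem_slitPlane_iff] at hcon
  exact absurd hcon.2 (not_le.2 (dl_half_pos P i))

/-- the vertical loop over `x = 1/2` in sheet `g` -/
noncomputable def loop (g : Ga) (y : UnitAddCircle) : P.Surf :=
  ⟨((((1 / 2 : ℝ) : UnitAddCircle), y),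
    fun i => om ^ (g i).val * cb (P.G i (((1 / 2 : ℝ) : UnitAddCircle), y))), by
    intro i
    simp only
    rw [mul_pow, cb_pow, ← pow_mul, mul_comm, ← mul_comm 3, pow_mul, om_pow, one_pow, mul_one]⟩

theorem loop_continuous (g : Ga) : Continuous (loop P g) := by
  have hind : IsInducing (fun p : P.Surf => p.1) :=
    Topology.IsInducing.subtypeVal (t := {p : (UnitAddCircle × UnitAddCircle) × (Fin 2 → ℂ) |
      ∀ i, p.2 i ^ 3 = P.G i p.1})
  rw [hind.continuous_iff]
  have hb : Continuous fun y : UnitAddCircle => ((((1 / 2 : ℝ) : UnitAddCircle), y) :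
      UnitAddCircle × UnitAddCircle) := by fun_prop
  refine hb.prodMk ?_
  rw [continuous_pi_iff]
  intro i
  refine continuous_const.mul ?_
  rw [continuous_iff_continuousAt]
  intro y
  exact ContinuousAt.comp (f := fun y : UnitAddCircle => P.G i (((1 / 2 : ℝ) : UnitAddCircle), y))
    (cb_continuousAt (G_half_mem P i y)) ((continuous_G P i).comp hb).continuousAt

theorem sheet_loop (g : Ga) (y : UnitAddCircle) : P.sheet (loop P g y) = g := by
  funext i
  have hne : P.G i (((1 / 2 : ℝ) : UnitAddCircle), y) ≠ 0 :=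
    Complex.slitPlane_ne_zero (G_half_mem P i y)
  exact (eq_lb_iff hne ((loop P g y).2 i) (g i)).2 rfl

theorem chi_continuous : Continuous chi := by
  unfold chi
  fun_prop

theorem chi_yl (t : I) : ((chi (yl ((t : ℝ) : UnitAddCircle)) : ℝ) : UnitAddCircle) =
    ((chi t : ℝ) : UnitAddCircle) := by
  rcases eq_or_ne t 0 with rfl | ht
  · have h1 : yl (((0 : I) : ℝ) : UnitAddCircle) = 1 := by
      unfold yl
      have : (((0 : I) : ℝ) : UnitAddCircle) = ((1 : ℝ) : UnitAddCircle) := by
        rw [AddCircle.coe_period]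
        simp
      rw [this, AddCircle.equivIoc_coe_of_mem]
      simp
    rw [h1]
    have h2 : chi 1 = 1 := by unfold chi; norm_num
    have h3 : chi ((0 : I) : ℝ) = 0 := by unfold chi; norm_num
    rw [h2, h3]
    simp
  · have h1 : yl ((t : ℝ) : UnitAddCircle) = t := by
      unfold yl
      rw [AddCircle.equivIoc_coe_of_mem]
      have : (0:ℝ) < t := unitInterval.pos_iff_ne_zero.2 ht
      simpa using ⟨this, t.2.2⟩
    rw [h1]

/-- the first Betti number is at least `4` -/
theorem surf_betti : BettiGe P.Surf 4 := by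
  obtain ⟨F, hF⟩ := exists_isotopy P
  obtain ⟨h, hh, -⟩ := exists_cls P F hF
  have hcard : Fintype.card (Fin 4) ≤ Fintype.card Ga := by
    simp [Ga]
  obtain ⟨e⟩ : Nonempty (Fin 4 ↪ Ga) := Function.Embedding.nonempty_of_card_le hcard
  refine ⟨fun i => h (e i), fun j => ⟨fun t : I => loop P (e j) ((t : ℝ) : UnitAddCircle), ?_⟩, ?_, ?_⟩
  · exact (loop_continuous P (e j)).comp ((AddCircle.continuous_mk' (1:ℝ)).comp
      continuous_subtype_val)
  · intro j
    simp only [ContinuousMap.coe_mk]
    congr 1
    have : (((1 : I) : ℝ) : UnitAddCircle) = 0 := AddCircle.coe_period (1 : ℝ)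
    rw [this]
    simp
  · intro i j
    by_cases hij : i = j
    · subst hij
      refine ⟨⟨fun t : I => chi t, chi_continuous.comp continuous_subtype_val⟩, ?_, ?_⟩
      · intro t
        simp only [ContinuousMap.coe_mk]
        rw [hh, if_pos (sheet_loop P _ _)]
        exact (chi_yl t).symm
      · simp only [ContinuousMap.coe_mk, if_true]
        unfold chi
        norm_num
    · refine ⟨⟨fun _ => 0, continuous_const⟩, ?_, ?_⟩
      · intro t
        simp only [ContinuousMap.coe_mk]
        rw [hh, if_neg]
        · simp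
        · rw [sheet_loop]
          intro h
          exact hij (e.injective h).symm
      · simp [hij]

end Pool.Agent.helper97.Rot
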