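import Mathlib
import Pool.Agent.helper18.Rot.Defs
import Pool.Agent.helper31.Rot.G
import Pool.Agent.helper31.Rot.Cb

/-!
# The surface is connected (mod:conn)
-/

open Topology Filter Set
open scoped unitInterval

namespace Pool.Agent.helper97.Rot

open Pool.Agent.helper18.Rot Par
open Pool.Agent.helper31.Rot (continuous_G G_notMem_slitPlane_iff G_near G_eq_zero_iff
  cb_continuousAt cb_pow om_pow eq_lb_iff)

variable (P : Par)

/-- the principal cube root is continuous on the closed upper half plane -/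
theorem cb_continuousOn_upper : ContinuousOn cb {z : ℂ | 0 ≤ z.im} := by
  intro z hz
  by_cases hs : z ∈ Complex.slitPlane
  · exact (cb_continuousAt hs).continuousWithinAt
  rw [Complex.mem_slitPlane_iff] at hs
  push Not at hs
  obtain ⟨hre, him⟩ := hs
  rcases hre.lt_or_eq with hre | hre
  · have hz0 : z ≠ 0 := by
      rintro rfl
      simp at hre
    have h1 := Complex.continuousWithinAt_log_of_re_neg_of_im_zero hre him
    have h2 : ContinuousWithinAt (fun z : ℂ => Complex.exp (Complex.log z * (1 / 3 : ℂ)))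
        {z : ℂ | 0 ≤ z.im} z := by
      apply Complex.continuous_exp.continuousAt.comp_continuousWithinAt
      exact h1.mul continuousWithinAt_const
    refine h2.congr_of_eventuallyEq ?_ ?_
    · have : ∀ᶠ w in 𝓝 z, w ≠ 0 := isOpen_ne.mem_nhds hz0
      filter_upwards [mem_nhdsWithin_of_mem_nhds this] with w hw
      unfold cb
      rw [Complex.cpow_def_of_ne_zero hw]
    · unfold cb
      rw [Complex.cpow_def_of_ne_zero hz0]
  · have hz0 : z = 0 := Complex.ext hre him
    subst hz0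
    apply ContinuousAt.continuousWithinAt
    have h3 : ContinuousAt (fun x : ℂ × ℂ => x.1 ^ x.2) (0, (1 / 3 : ℂ)) :=
      Complex.continuousAt_cpow_zero_of_re_pos (by norm_num)
    have h4 : ContinuousAt (fun z : ℂ => ((z, (1 / 3 : ℂ)) : ℂ × ℂ)) 0 := by fun_prop
    exact ContinuousAt.comp (f := fun z : ℂ => ((z, (1 / 3 : ℂ)) : ℂ × ℂ)) h3 h4

/-- the covering pieces: `(x, v) ↦ (x, -v, om ^ j * cb G)` -/
noncomputable def piece (j : Ga) (q : UnitAddCircle × ℝ) : P.Surf :=
  ⟨((q.1, ((-q.2 : ℝ) : UnitAddCircle)),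
    fun i => om ^ (j i).val * cb (P.G i (q.1, ((-q.2 : ℝ) : UnitAddCircle)))), by
    intro i
    simp only
    rw [mul_pow, cb_pow, ← pow_mul, mul_comm, ← mul_comm 3, pow_mul, om_pow, one_pow, mul_one]⟩

theorem coe_eq_zero_iff {v : ℝ} (h0 : 0 ≤ v) (h1 : v < 1) :
    ((-v : ℝ) : UnitAddCircle) = 0 ↔ v = 0 := by
  rw [AddCircle.coe_neg, neg_eq_zero, AddCircle.coe_eq_zero_iff_of_mem_Ico (p := (1:ℝ)) (by
    simpa using ⟨h0, h1⟩)]

theorem piece_continuousOn (j : Ga) :
    ContinuousOn (piece P j) (univ ×ˢ Ico (0 : ℝ) 1) := by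
  have hbase : Continuous fun q : UnitAddCircle × ℝ => ((q.1, ((-q.2 : ℝ) : UnitAddCircle)) :
      UnitAddCircle × UnitAddCircle) := by
    refine continuous_fst.prodMk ?_
    exact (AddCircle.continuous_mk' (1:ℝ)).comp continuous_snd.neg
  have hcb : ∀ i, ContinuousOn (fun q : UnitAddCircle × ℝ =>
      cb (P.G i (q.1, ((-q.2 : ℝ) : UnitAddCircle)))) (univ ×ˢ Ico (0 : ℝ) 1) := by
    intro i q hq
    have hG : Continuous fun q : UnitAddCircle × ℝ => P.G i (q.1, ((-q.2 : ℝ) : UnitAddCircle)) :=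
      (continuous_G P i).comp hbase
    obtain ⟨-, hq0, hq1⟩ := hq
    rcases hq0.lt_or_eq with hpos | hzero
    · have hs : P.G i (q.1, ((-q.2 : ℝ) : UnitAddCircle)) ∈ Complex.slitPlane := by
        by_contra hcon
        rw [G_notMem_slitPlane_iff] at hcon
        have := (coe_eq_zero_iff hq0 hq1).1 hcon.1
        exact hpos.ne' this
      exact (ContinuousAt.comp (f := fun q : UnitAddCircle × ℝ =>
        P.G i (q.1, ((-q.2 : ℝ) : UnitAddCircle))) (cb_continuousAt hs)
          hG.continuousAt).continuousWithinAt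
    · have him : ∀ᶠ q' in 𝓝[univ ×ˢ Ico (0 : ℝ) 1] q,
          P.G i (q'.1, ((-q'.2 : ℝ) : UnitAddCircle)) ∈ {z : ℂ | 0 ≤ z.im} := by
        have h8 : ∀ᶠ q' : UnitAddCircle × ℝ in 𝓝 q, q'.2 < 1 / 8 := by
          apply (continuous_snd.continuousAt.eventually_lt continuousAt_const)
          rw [← hzero]; norm_num
        filter_upwards [mem_nhdsWithin_of_mem_nhds h8, self_mem_nhdsWithin] with q' h8' hq'
        obtain ⟨-, h0', h1'⟩ := hq'
        rw [G_near P i q'.1 (v := -q'.2) (by rw [abs_neg, abs_of_nonneg h0']; exact h8'.le)]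
        simpa using h0'
      have hq' : P.G i (q.1, ((-q.2 : ℝ) : UnitAddCircle)) ∈ {z : ℂ | 0 ≤ z.im} := by
        rw [G_near P i q.1 (v := -q.2) (by rw [← hzero]; norm_num)]
        simp [← hzero]
      have h5 := cb_continuousOn_upper _ hq'
      have h6 : Tendsto (fun q : UnitAddCircle × ℝ => P.G i (q.1, ((-q.2 : ℝ) : UnitAddCircle)))
          (𝓝[univ ×ˢ Ico (0 : ℝ) 1] q)
          (𝓝[{z : ℂ | 0 ≤ z.im}] (P.G i (q.1, ((-q.2 : ℝ) : UnitAddCircle)))) := by
        rw [tendsto_nhdsWithin_iff]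
        exact ⟨(hG.tendsto q).mono_left nhdsWithin_le_nhds, him⟩
      exact h5.tendsto.comp h6
  have hind : IsInducing (fun p : P.Surf => p.1) :=
    Topology.IsInducing.subtypeVal (t := {p : (UnitAddCircle × UnitAddCircle) × (Fin 2 → ℂ) |
      ∀ i, p.2 i ^ 3 = P.G i p.1})
  rw [hind.continuousOn_iff]
  refine hbase.continuousOn.prodMk ?_
  rw [continuousOn_pi]
  intro i
  exact continuousOn_const.mul (hcb i)

theorem piece_isConnected (j : Ga) :
    IsConnected (piece P j '' (univ ×ˢ Ico (0 : ℝ) 1)) := by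
  refine IsConnected.image ?_ _ (piece_continuousOn P j)
  exact isConnected_univ.prod (isConnected_Ico (by norm_num))

theorem piece_cover (p : P.Surf) : ∃ j, p ∈ piece P j '' (univ ×ˢ Ico (0 : ℝ) 1) := by
  obtain ⟨⟨⟨x, y⟩, w⟩, hw⟩ := p
  -- representative of -y
  obtain ⟨v, hv, hvy⟩ : ∃ v : ℝ, v ∈ Ico (0:ℝ) 1 ∧ ((-v : ℝ) : UnitAddCircle) = y := by
    have h1 := (AddCircle.equivIco (1:ℝ) 0 (-y)).2
    refine ⟨(AddCircle.equivIco (1:ℝ) 0 (-y) : ℝ), by simpa using h1, ?_⟩
    rw [AddCircle.coe_neg, AddCircle.coe_equivIco, neg_neg]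
  refine ⟨fun i => lb (P.G i (x, y)) (w i), (x, v), ⟨mem_univ _, hv⟩, ?_⟩
  apply Subtype.ext
  unfold piece
  simp only [hvy]
  refine Prod.ext rfl ?_
  funext i
  simp only
  have hwi : w i ^ 3 = P.G i (x, y) := hw i
  by_cases hG : P.G i (x, y) = 0
  · have : w i = 0 := by
      rw [hG] at hwi
      exact pow_eq_zero_iff (three_ne_zero) |>.1 hwi
    rw [hG, this]
    have h0 : cb 0 = 0 := by
      unfold cb
      rw [Complex.zero_cpow (by norm_num)]
    rw [h0, mul_zero]
  · exact ((eq_lb_iff hG hwi _).1 rfl).symm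

theorem G_lo_zero (i : Fin 2) : P.G i ((P.lo i : UnitAddCircle), ((-0 : ℝ) : UnitAddCircle)) = 0 := by
  rw [G_eq_zero_iff]
  exact ⟨by simp, Or.inl rfl⟩

theorem piece_meet (i : Fin 2) (j j' : Ga) (h : ∀ k, k ≠ i → j k = j' k) :
    (piece P j '' (univ ×ˢ Ico (0 : ℝ) 1) ∩ piece P j' '' (univ ×ˢ Ico (0 : ℝ) 1)).Nonempty := by
  have hcb0 : cb 0 = 0 := by
    unfold cb
    rw [Complex.zero_cpow (by norm_num)]
  refine ⟨piece P j ((P.lo i : UnitAddCircle), 0), ⟨_, ⟨mem_univ _, by simp⟩, rfl⟩,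
    ⟨((P.lo i : UnitAddCircle), 0), ⟨mem_univ _, by simp⟩, ?_⟩⟩
  apply Subtype.ext
  unfold piece
  simp only
  refine Prod.ext rfl ?_
  funext k
  simp only
  by_cases hk : k = i
  · subst hk
    rw [G_lo_zero, hcb0, mul_zero, mul_zero]
  · rw [h k hk]

/-- the surface is connected -/
theorem surf_connected : ConnectedSpace P.Surf := by
  have hK : ∀ j j' : Ga, Relation.ReflTransGen (fun j j' : Ga =>
      (piece P j '' (univ ×ˢ Ico (0 : ℝ) 1) ∩ piece P j' '' (univ ×ˢ Ico (0 : ℝ) 1)).Nonempty)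
      j j' := by
    intro j j'
    refine Relation.ReflTransGen.head (b := Function.update j 0 (j' 0)) ?_
      (Relation.ReflTransGen.single ?_)
    · apply piece_meet P 0
      intro k hk
      rw [Function.update_of_ne hk]
    · apply piece_meet P 1
      intro k hk
      have : k = 0 := by
        fin_cases k
        · rfl
        · simp at hk
      subst this
      simp
  have h := IsConnected.iUnion_of_reflTransGen (piece_isConnected P) hK
  have huniv : (⋃ j, piece P j '' (univ ×ˢ Ico (0 : ℝ) 1)) = univ := by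
    apply eq_univ_of_forall
    intro p
    obtain ⟨j, hj⟩ := piece_cover P p
    exact mem_iUnion.2 ⟨j, hj⟩
  rw [huniv] at h
  exact connectedSpace_iff_univ.2 h

end Pool.Agent.helper97.Rot
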