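import Mathlib
import Pool.Agent.helper18.Rot.SymDefs
import Pool.Agent.helper54.Rot.Comb

/-!
# The combinatorial lemma on coarse labels (mod:ubcomb)
-/

open Topology Filter Set

namespace Pool.Agent.helper97.Rot

open Pool.Agent.helper18.Rot Sym
open Pool.Agent.helper54.Rot (Lb_eq)

theorem exists_of_T_pos {k : ℕ} {t : Letter} {s : Ga} {pre : ℝ} {M : ℕ} {d : ℕ → ℝ} {g : Ga}
    (h : 0 < (if s = g then pre else 0) +
      ∑ i ∈ Finset.range M, if s + Lb k t (i + 1) = g then d i else 0) :
    ∃ j ≤ M, s + Lb k t j = g := by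
  by_contra hcon
  push Not at hcon
  have h0 : ¬ s = g := by
    have := hcon 0 (Nat.zero_le _)
    simpa [Lb] using this
  rw [if_neg h0, zero_add] at h
  have : ∑ i ∈ Finset.range M, (if s + Lb k t (i + 1) = g then d i else 0) = 0 := by
    apply Finset.sum_eq_zero
    intro i hi
    rw [if_neg]
    exact hcon (i + 1) (Finset.mem_range.1 hi)
  linarith

theorem cast_eq_iff (a b : ℕ) : ((a : ZMod 3) = (b : ZMod 3)) ↔ a % 3 = b % 3 := by
  rw [ZMod.natCast_eq_natCast_iff']

/-- MODULE ubcomb -/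
theorem ubcomb (k : ℕ) (t : Letter) (s : Ga) {h pre : ℝ} (hh : 0 < h) (hpre : 0 ≤ pre) {M : ℕ}
    (hM : M ≤ nt k t) (d : ℕ → ℝ) (hd0 : ∀ i, 0 ≤ d i) (hdh : ∀ i, d i ≤ h) {i₁ i₂ : ℕ}
    (h12 : i₁ ≤ i₂) (h2 : i₂ < M) (hout : ∀ i, i < i₁ ∨ i₂ < i → d i = 0)
    (hin : ∀ i, i₁ < i → i < i₂ → d i = h) (hpre1 : 0 < pre → i₁ = 0 ∧ (0 < i₂ → d 0 = h))
    (T : Ga → ℝ)
    (hT : ∀ g, T g = (if s = g then pre else 0) +
      ∑ i ∈ Finset.range M, if s + Lb k t (i + 1) = g then d i else 0)
    (h1 : 0 < T ![1, 0]) (h2' : 0 < T ![2, 0]) (h3 : 0 < T ![0, 1]) (h4 : 0 < T ![0, 2]) :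
    T ![1, 0] ≤ (mA k + 1) * h ∧ T ![0, 2] ≤ (mB k + 1) * h ∧
    T ![1, 0] + T ![0, 2] + (ml k - 1) * h ≤ T 0 ∧
    ml k * h ≤ pre + ∑ i ∈ Finset.range M, d i := by
  classical
  set a := 3 * mA k + eA t with ha
  set b := gB k t with hb
  set c := gR k t with hc
  have heA : eA t ≤ 1 := by unfold eA; split_ifs <;> omega
  have hab : a + ml k ≤ b := by
    rw [ha, hb]
    unfold gB eA
    split_ifs with h5 h6 <;> first | omega | (exfalso; tauto)
  have hbc : b + 3 * mB k ≤ c ∧ c ≤ b + 3 * mB k + 1 := by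
    rw [hb, hc]
    unfold gB gR
    split_ifs with h5 h6 <;> first | omega | (exfalso; tauto)
  have hml : 3 ≤ ml k := by
    unfold ml jj
    have : 1 ≤ ((Nat.unpair k).1 + 1) * (k + 1) := Nat.one_le_iff_ne_zero.2 (by positivity)
    nlinarith
  have hLb : ∀ j ≤ M, Lb k t j = ![((min j a : ℕ) : ZMod 3), ((min j c - b : ℕ) : ZMod 3)] :=
    fun j hj => Lb_eq k t (hj.trans hM)
  have hz3 : ((3 * mA k : ℕ) : ZMod 3) = 0 := by
    rw [Nat.cast_mul]
    have : ((3 : ℕ) : ZMod 3) = 0 := by decide
    rw [this, zero_mul]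
  -- the starting sheet
  have hvis : ∀ g, 0 < T g → ∃ j ≤ M, s + Lb k t j = g := by
    intro g hg
    rw [hT g] at hg
    exact exists_of_T_pos hg
  have hcoord : ∀ j ≤ M, ∀ x y : ZMod 3, s + Lb k t j = ![x, y] →
      s 0 + ((min j a : ℕ) : ZMod 3) = x ∧ s 1 + ((min j c - b : ℕ) : ZMod 3) = y := by
    intro j hj x y hxy
    rw [hLb j hj] at hxy
    constructor
    · have := congrFun hxy 0
      simpa using this
    · have := congrFun hxy 1
      simpa using this
  have hs1 : s 1 = 0 := by
    obtain ⟨j1, hj1, e1⟩ := hvis _ h1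
    obtain ⟨j2, hj2, e2⟩ := hvis _ h2'
    obtain ⟨e1a, e1b⟩ := hcoord j1 hj1 _ _ e1
    obtain ⟨e2a, e2b⟩ := hcoord j2 hj2 _ _ e2
    by_cases hj1a : j1 ≤ b
    · rw [show min j1 c - b = 0 by omega] at e1b
      simpa using e1b
    by_cases hj2a : j2 ≤ b
    · rw [show min j2 c - b = 0 by omega] at e2b
      simpa using e2b
    exfalso
    rw [show min j1 a = a by omega] at e1a
    rw [show min j2 a = a by omega, e1a] at e2a
    exact absurd e2a (by decide)
  have hs0 : s 0 = -(eA t : ZMod 3) := by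
    obtain ⟨j1, hj1, e1⟩ := hvis _ h3
    obtain ⟨j2, hj2, e2⟩ := hvis _ h4
    obtain ⟨e1a, e1b⟩ := hcoord j1 hj1 _ _ e1
    obtain ⟨e2a, e2b⟩ := hcoord j2 hj2 _ _ e2
    have key : s 0 + ((a : ℕ) : ZMod 3) = 0 → s 0 = -(eA t : ZMod 3) := by
      intro h
      rw [ha, Nat.cast_add, hz3, zero_add] at h
      exact eq_neg_of_add_eq_zero_left h
    by_cases hj1a : b < j1
    · rw [show min j1 a = a by omega] at e1a
      exact key e1a
    by_cases hj2a : b < j2
    · rw [show min j2 a = a by omega] at e2a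
      exact key e2a
    exfalso
    rw [show min j1 c - b = 0 by omega] at e1b
    rw [show min j2 c - b = 0 by omega, e1b] at e2b
    exact absurd e2b (by decide)
  -- description of the visited sheets
  have hfst : ∀ n x : ℕ, s 0 + (n : ZMod 3) = (x : ZMod 3) ↔ n % 3 = (x + eA t) % 3 := by
    intro n x
    rw [hs0, ← cast_eq_iff, Nat.cast_add]
    constructor
    · intro h; rw [← h]; ring
    · intro h; rw [h]; ring
  have hsnd : ∀ n x : ℕ, s 1 + (n : ZMod 3) = (x : ZMod 3) ↔ n % 3 = x % 3 := by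
    intro n x
    rw [hs1, zero_add, cast_eq_iff]
  have hshe : ∀ i, i + 1 ≤ M → ∀ x y : ℕ, (s + Lb k t (i + 1) = ![(x : ZMod 3), (y : ZMod 3)] ↔
      (min (i + 1) a) % 3 = (x + eA t) % 3 ∧ (min (i + 1) c - b) % 3 = y % 3) := by
    intro i hi x y
    constructor
    · intro h
      obtain ⟨e1, e2⟩ := hcoord _ hi _ _ h
      exact ⟨(hfst _ _).1 e1, (hsnd _ _).1 e2⟩
    · rintro ⟨e1, e2⟩
      rw [hLb _ hi]
      funext q
      fin_cases q
      · simpa using (hfst _ _).2 e1
      · simpa using (hsnd _ _).2 e2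
  have e10 : (![1, 0] : Ga) = ![((1 : ℕ) : ZMod 3), ((0 : ℕ) : ZMod 3)] := by simp
  have e02 : (![0, 2] : Ga) = ![((0 : ℕ) : ZMod 3), ((2 : ℕ) : ZMod 3)] := by simp
  have e00 : (0 : Ga) = ![((0 : ℕ) : ZMod 3), ((0 : ℕ) : ZMod 3)] := by
    funext q; fin_cases q <;> simp
  -- `p`, `q`, `z`
  have hp : ∀ i, i + 1 ≤ M → s + Lb k t (i + 1) = ![1, 0] →
      i + 3 ≤ a ∧ (i + 1) % 3 = (1 + eA t) % 3 := by
    intro i hi h
    rw [e10, hshe i hi] at h
    omega
  have hq : ∀ i, i + 1 ≤ M → s + Lb k t (i + 1) = ![0, 2] →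
      b + 1 ≤ i ∧ i + 1 ≤ c ∧ (i + 1 - b) % 3 = 2 := by
    intro i hi h
    rw [e02, hshe i hi] at h
    have hcb : c = b + 3 * mB k ∨ c = b + 3 * mB k + 1 := by omega
    omega
  have hzmid : ∀ i, i + 1 ≤ M → a ≤ i + 1 → i + 1 ≤ b → s + Lb k t (i + 1) = 0 := by
    intro i hi h5 h6
    rw [e00, hshe i hi]
    omega
  have hzp : ∀ i, i + 3 ≤ M → i + 3 ≤ a → (i + 1) % 3 = (1 + eA t) % 3 →
      s + Lb k t (i + 2 + 1) = 0 := by
    intro i hi h5 h6
    rw [e00, hshe (i + 2) hi]
    omega
  have hzq : ∀ i, i + 1 ≤ M → b + 1 ≤ i → i + 1 ≤ c → (i + 1 - b) % 3 = 2 →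
      s + Lb k t (i - 2 + 1) = 0 := by
    intro i hi h5 h6 h7
    rw [e00, hshe (i - 2) (by omega)]
    omega
  have hsne1 : ¬ s = ![1, 0] := by
    intro h
    have := congrFun h 0
    rw [hs0] at this
    have h5 : eA t = 0 ∨ eA t = 1 := by omega
    rcases h5 with h5 | h5 <;> rw [h5] at this <;> revert this <;> decide
  have hsne2 : ¬ s = ![0, 2] := by
    intro h
    have := congrFun h 1
    rw [hs1] at this
    exact absurd this (by decide)
  -- the sums
  have hT1 : T ![1, 0] = ∑ i ∈ (Finset.range M).filter (fun i => s + Lb k t (i + 1) = ![1, 0]), d i := by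
    rw [hT, if_neg hsne1, zero_add, Finset.sum_filter]
  have hT2 : T ![0, 2] = ∑ i ∈ (Finset.range M).filter (fun i => s + Lb k t (i + 1) = ![0, 2]), d i := by
    rw [hT, if_neg hsne2, zero_add, Finset.sum_filter]
  have hT0 : ∑ i ∈ (Finset.range M).filter (fun i => s + Lb k t (i + 1) = 0), d i ≤ T 0 := by
    rw [hT, Finset.sum_filter]
    have : 0 ≤ (if s = 0 then pre else 0) := by split_ifs <;> linarith
    linarith
  -- position of the window
  have hi1 : i₁ + 3 ≤ a := by
    rw [hT1] at h1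
    obtain ⟨i, hi, hdi⟩ := Finset.exists_ne_zero_of_sum_ne_zero h1.ne'
    rw [Finset.mem_filter, Finset.mem_range] at hi
    have h5 := hp i hi.1 hi.2
    by_contra hcon
    exact hdi (hout i (Or.inl (by omega)))
  have hi2 : b + 1 ≤ i₂ := by
    rw [hT2] at h4
    obtain ⟨i, hi, hdi⟩ := Finset.exists_ne_zero_of_sum_ne_zero h4.ne'
    rw [Finset.mem_filter, Finset.mem_range] at hi
    have h5 := hq i hi.1 hi.2
    by_contra hcon
    exact hdi (hout i (Or.inr (by omega)))
  refine ⟨?_, ?_, ?_, ?_⟩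
  · -- count
    rw [hT1]
    have hcard : ((Finset.range M).filter (fun i => s + Lb k t (i + 1) = ![1, 0])).card
        ≤ mA k + 1 := by
      rw [← Finset.card_range (mA k + 1)]
      apply Finset.card_le_card_of_injOn (fun i => i / 3)
      · intro i hi
        simp only [Finset.coe_filter, Finset.mem_range, Set.mem_ofPred_eq] at hi
        have h5 := hp i hi.1 hi.2
        simp only [Finset.coe_range, Set.mem_Iio]
        omega
      · intro i hi i' hi' hii
        simp only [Finset.coe_filter, Finset.mem_range, Set.mem_ofPred_eq] at hi hi'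
        have h5 := hp i hi.1 hi.2
        have h6 := hp i' hi'.1 hi'.2
        simp only at hii
        omega
    calc ∑ i ∈ (Finset.range M).filter (fun i => s + Lb k t (i + 1) = ![1, 0]), d i
        ≤ ((Finset.range M).filter (fun i => s + Lb k t (i + 1) = ![1, 0])).card • h :=
          Finset.sum_le_card_nsmul _ _ _ (fun i _ => hdh i)
      _ ≤ (mA k + 1) * h := by
          rw [nsmul_eq_mul]
          have : (((Finset.range M).filter (fun i => s + Lb k t (i + 1) = ![1, 0])).card : ℝ)
              ≤ mA k + 1 := by exact_mod_cast hcard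
          exact mul_le_mul_of_nonneg_right this hh.le
  · rw [hT2]
    have hcard : ((Finset.range M).filter (fun i => s + Lb k t (i + 1) = ![0, 2])).card
        ≤ mB k + 1 := by
      rw [← Finset.card_range (mB k + 1)]
      apply Finset.card_le_card_of_injOn (fun i => (i + 1 - b) / 3)
      · intro i hi
        simp only [Finset.coe_filter, Finset.mem_range, Set.mem_ofPred_eq] at hi
        have h5 := hq i hi.1 hi.2
        simp only [Finset.coe_range, Set.mem_Iio]
        omega
      · intro i hi i' hi' hii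
        simp only [Finset.coe_filter, Finset.mem_range, Set.mem_ofPred_eq] at hi hi'
        have h5 := hq i hi.1 hi.2
        have h6 := hq i' hi'.1 hi'.2
        simp only at hii
        omega
    calc ∑ i ∈ (Finset.range M).filter (fun i => s + Lb k t (i + 1) = ![0, 2]), d i
        ≤ ((Finset.range M).filter (fun i => s + Lb k t (i + 1) = ![0, 2])).card • h :=
          Finset.sum_le_card_nsmul _ _ _ (fun i _ => hdh i)
      _ ≤ (mB k + 1) * h := by
          rw [nsmul_eq_mul]
          have : (((Finset.range M).filter (fun i => s + Lb k t (i + 1) = ![0, 2])).card : ℝ)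
              ≤ mB k + 1 := by exact_mod_cast hcard
          exact mul_le_mul_of_nonneg_right this hh.le
  · refine le_trans ?_ hT0
    set Z := (Finset.range M).filter (fun i => s + Lb k t (i + 1) = 0) with hZ
    set S1 := ((Finset.range M).filter (fun i => s + Lb k t (i + 1) = ![1, 0])).image (· + 2)
      with hS1
    set S2 := ((Finset.range M).filter (fun i => s + Lb k t (i + 1) = ![0, 2])).image (· - 2)
      with hS2
    set S3 := Finset.Ico a (b - 1) with hS3
    have hS1Z : S1 ⊆ Z := by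
      intro i hi
      rw [hS1, Finset.mem_image] at hi
      obtain ⟨j, hj, rfl⟩ := hi
      rw [Finset.mem_filter, Finset.mem_range] at hj
      have h5 := hp j hj.1 hj.2
      rw [hZ, Finset.mem_filter, Finset.mem_range]
      refine ⟨by omega, hzp j (by omega) h5.1 h5.2⟩
    have hS2Z : S2 ⊆ Z := by
      intro i hi
      rw [hS2, Finset.mem_image] at hi
      obtain ⟨j, hj, rfl⟩ := hi
      rw [Finset.mem_filter, Finset.mem_range] at hj
      have h5 := hq j hj.1 hj.2
      rw [hZ, Finset.mem_filter, Finset.mem_range]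
      refine ⟨by omega, hzq j hj.1 h5.1 h5.2.1 h5.2.2⟩
    have hS3Z : S3 ⊆ Z := by
      intro i hi
      rw [hS3, Finset.mem_Ico] at hi
      rw [hZ, Finset.mem_filter, Finset.mem_range]
      refine ⟨by omega, hzmid i (by omega) (by omega) (by omega)⟩
    have hd13 : Disjoint S1 S3 := by
      rw [Finset.disjoint_left]
      intro i hi hi'
      rw [hS1, Finset.mem_image] at hi
      obtain ⟨j, hj, rfl⟩ := hi
      rw [Finset.mem_filter, Finset.mem_range] at hj
      have h5 := hp j hj.1 hj.2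
      rw [hS3, Finset.mem_Ico] at hi'
      omega
    have hd12 : Disjoint (S1 ∪ S3) S2 := by
      rw [Finset.disjoint_left]
      intro i hi hi'
      rw [hS2, Finset.mem_image] at hi'
      obtain ⟨j, hj, rfl⟩ := hi'
      rw [Finset.mem_filter, Finset.mem_range] at hj
      have h5 := hq j hj.1 hj.2
      rw [Finset.mem_union] at hi
      rcases hi with hi | hi
      · rw [hS1, Finset.mem_image] at hi
        obtain ⟨j', hj', hjj⟩ := hi
        rw [Finset.mem_filter, Finset.mem_range] at hj'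
        have h6 := hp j' hj'.1 hj'.2
        omega
      · rw [hS3, Finset.mem_Ico] at hi
        omega
    have hsum : ∑ i ∈ S1, d i + ∑ i ∈ S3, d i + ∑ i ∈ S2, d i ≤ ∑ i ∈ Z, d i := by
      rw [← Finset.sum_union hd13, ← Finset.sum_union hd12]
      apply Finset.sum_le_sum_of_subset_of_nonneg
      · exact Finset.union_subset (Finset.union_subset hS1Z hS3Z) hS2Z
      · intro i _ _; exact hd0 i
    have hsum1 : T ![1, 0] ≤ ∑ i ∈ S1, d i := by
      rw [hT1, hS1, Finset.sum_image (by intro x _ y _ hxy; simpa using hxy)]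
      apply Finset.sum_le_sum
      intro i hi
      rw [Finset.mem_filter, Finset.mem_range] at hi
      have h5 := hp i hi.1 hi.2
      by_cases hlt : i < i₁
      · rw [hout i (Or.inl hlt)]; exact hd0 _
      · rw [hin (i + 2) (by omega) (by omega)]; exact hdh i
    have hsum2 : T ![0, 2] ≤ ∑ i ∈ S2, d i := by
      rw [hT2, hS2, Finset.sum_image]
      · apply Finset.sum_le_sum
        intro i hi
        rw [Finset.mem_filter, Finset.mem_range] at hi
        have h5 := hq i hi.1 hi.2
        by_cases hlt : i₂ < i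
        · rw [hout i (Or.inr hlt)]; exact hd0 _
        · rw [hin (i - 2) (by omega) (by omega)]; exact hdh i
      · intro x hx y hy hxy
        simp only [Finset.coe_filter, Finset.mem_range, Set.mem_ofPred_eq] at hx hy
        have h5 := hq x hx.1 hx.2
        have h6 := hq y hy.1 hy.2
        simp only at hxy
        omega
    have hsum3 : ((ml k : ℝ) - 1) * h ≤ ∑ i ∈ S3, d i := by
      have h5 : ∑ i ∈ S3, d i = ∑ _i ∈ S3, h := by
        apply Finset.sum_congr rfl
        intro i hi
        rw [hS3, Finset.mem_Ico] at hi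
        exact hin i (by omega) (by omega)
      rw [h5, Finset.sum_const, nsmul_eq_mul, hS3, Nat.card_Ico]
      apply mul_le_mul_of_nonneg_right _ hh.le
      have : ml k - 1 ≤ b - 1 - a := by omega
      have h6 : ((ml k - 1 : ℕ) : ℝ) ≤ ((b - 1 - a : ℕ) : ℝ) := by exact_mod_cast this
      rw [Nat.cast_sub (by omega)] at h6
      simpa using h6
    linarith
  · have h5 : (ml k : ℝ) * h ≤ ∑ i ∈ Finset.Ico a b, d i := by
      have h6 : ∑ i ∈ Finset.Ico a b, d i = ∑ _i ∈ Finset.Ico a b, h := by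
        apply Finset.sum_congr rfl
        intro i hi
        rw [Finset.mem_Ico] at hi
        exact hin i (by omega) (by omega)
      rw [h6, Finset.sum_const, nsmul_eq_mul, Nat.card_Ico]
      apply mul_le_mul_of_nonneg_right _ hh.le
      have : ml k ≤ b - a := by omega
      exact_mod_cast this
    have h7 : ∑ i ∈ Finset.Ico a b, d i ≤ ∑ i ∈ Finset.range M, d i := by
      apply Finset.sum_le_sum_of_subset_of_nonneg
      · intro i hi
        rw [Finset.mem_Ico] at hi
        rw [Finset.mem_range]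
        omega
      · intro i _ _; exact hd0 i
    linarith

end Pool.Agent.helper97.Rot
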